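import Pool.Agent.Q235.Tverberg.Words
import Mathlib.Analysis.LocallyConvex.Separation
import Mathlib.Analysis.Normed.Module.FiniteDimension
import Mathlib.Analysis.Convex.Topology
import Mathlib.Topology.Algebra.Polynomial
import Mathlib.Algebra.Polynomial.Roots
import Mathlib.Tactic.Linarith
import Mathlib.Tactic.Positivity
import Mathlib.Tactic.FieldSimp

/-!
# Convex hulls of sets of points on the moment curve and alternations
-/

set_option autoImplicit false

namespace Pool.Agent.Q235.Tvb

open Finset Polynomial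

/-- The sign of a Boolean. -/
def sg (b : Bool) : ℝ := if b then 1 else -1

theorem sg_not (b : Bool) : sg (!b) = - sg b := by cases b <;> simp [sg]

theorem sg_mul_self (b : Bool) : sg b * sg b = 1 := by cases b <;> simp [sg]

theorem Alt.snoc {σ : ℕ → Bool} {ℓ : ℕ} {T T' : Finset ℕ} {a : Bool} (hTT : T' ⊆ T) {t : ℕ → ℕ}
    (h1 : ∀ i, i + 1 < ℓ + 1 → t i < t (i + 1)) (h2 : ∀ i, i < ℓ + 1 → t i ∈ T')
    (h3 : ∀ i, i < ℓ + 1 → σ (t i) = if i % 2 = 0 then a else !a) {y : ℕ} (hy : y ∈ T)
    (hlt : t ℓ < y) (hcol : σ y ≠ σ (t ℓ)) : Alt σ (ℓ + 2) T a (!a) := by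
  refine ⟨fun i => if i < ℓ + 1 then t i else y, ?_, ?_, ?_⟩
  · intro i hi
    dsimp only
    by_cases e : i + 1 < ℓ + 1
    · rw [if_pos e, if_pos (by omega)]; exact h1 i e
    · have : i = ℓ := by omega
      subst this
      rw [if_pos (by omega), if_neg (by omega)]; exact hlt
  · intro i hi
    dsimp only
    split_ifs with e
    · exact hTT (h2 i e)
    · exact hy
  · intro i hi
    dsimp only
    by_cases e : i < ℓ + 1
    · rw [if_pos e]; exact h3 i e
    · have hi' : i = ℓ + 1 := by omega
      subst hi'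
      rw [if_neg e]
      have h4 := h3 ℓ (by omega)
      rw [h4] at hcol
      rcases Nat.mod_two_eq_zero_or_one ℓ with h | h
      · have h' : (ℓ + 1) % 2 = 1 := by omega
        rw [h] at hcol
        rw [h']
        simp only [if_true] at hcol
        simp only [one_ne_zero, if_false]
        cases a <;> cases hσ : σ y <;> simp_all
      · have h' : (ℓ + 1) % 2 = 0 := by omega
        rw [h] at hcol
        rw [h']
        simp only [one_ne_zero, if_false] at hcol
        simp only [if_true]
        cases a <;> cases hσ : σ y <;> simp_all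

/-- A two-coloured finite set without alternation of length `k + 2` is separated by a polynomial of
degree at most `k`. -/
theorem sep (σ : ℕ → Bool) (k : ℕ) : ∀ T : Finset ℕ, (∀ a, ¬ Alt σ (k + 2) T a (!a)) →
    ∃ p : ℝ[X], p.natDegree ≤ k ∧ (∀ t ∈ T, 0 < sg (σ t) * p.eval (t : ℝ)) ∧
      (∀ h : T.Nonempty, ∀ x : ℝ, ((T.max' h : ℕ) : ℝ) ≤ x → 0 < sg (σ (T.max' h)) * p.eval x) := by
  induction k with
  | zero =>
    intro T hT
    by_cases hne : T.Nonempty
    swap
    · exact ⟨1, by simp, fun t ht => absurd ⟨t, ht⟩ hne, fun h => absurd h hne⟩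
    refine ⟨C (sg (σ (T.max' hne))), by simp, ?_, ?_⟩
    · intro t ht
      have hcol : σ t = σ (T.max' hne) := by
        by_contra hcon
        have hlt : t < T.max' hne := by
          rcases Nat.eq_or_lt_of_le (Finset.le_max' T t ht) with h | h
          · exact absurd (by rw [← h]) hcon
          · exact h
        apply hT (σ t)
        refine ⟨fun i => if i = 0 then t else T.max' hne, ?_, ?_, ?_⟩
        · intro i hi
          have : i = 0 := by omega
          subst this
          simpa using hlt
        · intro i hi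
          dsimp only
          split_ifs
          · exact ht
          · exact Finset.max'_mem _ _
        · intro i hi
          have : i = 0 ∨ i = 1 := by omega
          rcases this with rfl | rfl
          · simp
          · simp only [one_ne_zero, if_false]
            cases h1 : σ t <;> cases h2 : σ (T.max' hne) <;> simp_all
      rw [hcol, eval_C, sg_mul_self]
      exact one_pos
    · intro h x _
      rw [eval_C, sg_mul_self]
      exact one_pos
  | succ k ih =>
    intro T hT
    by_cases hne : T.Nonempty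
    swap
    · exact ⟨1, by simp, fun t ht => absurd ⟨t, ht⟩ hne, fun h => absurd h hne⟩
    set ts := T.max' hne with hts
    have htsT : ts ∈ T := Finset.max'_mem _ _
    by_cases hN : (T.filter (fun t => σ t ≠ σ ts)).Nonempty
    swap
    · refine ⟨C (sg (σ ts)), by simp, ?_, ?_⟩
      · intro t ht
        have hcol : σ t = σ ts := by
          by_contra hcon
          exact hN ⟨t, Finset.mem_filter.2 ⟨ht, hcon⟩⟩
        rw [hcol, eval_C, sg_mul_self]
        exact one_pos
      · intro h x _
        rw [eval_C, sg_mul_self]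
        exact one_pos
    set q := (T.filter (fun t => σ t ≠ σ ts)).max' hN with hq
    have hqmem := Finset.mem_filter.1 (Finset.max'_mem (T.filter (fun t => σ t ≠ σ ts)) hN)
    rw [← hq] at hqmem
    have hqlt : q < ts := by
      rcases Nat.eq_or_lt_of_le (Finset.le_max' T q hqmem.1) with h | h
      · exact absurd (by rw [h]) hqmem.2
      · exact h
    set T' := T.filter (fun t => t ≤ q) with hT'
    have hqT' : q ∈ T' := Finset.mem_filter.2 ⟨hqmem.1, le_rfl⟩
    have hne' : T'.Nonempty := ⟨q, hqT'⟩
    have hmax' : T'.max' hne' = q :=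
      le_antisymm ((Finset.mem_filter.1 (Finset.max'_mem T' hne')).2) (Finset.le_max' T' q hqT')
    have hTT : T' ⊆ T := Finset.filter_subset _ _
    have hT'alt : ∀ a, ¬ Alt σ (k + 2) T' a (!a) := by
      rintro a ⟨t, h1, h2, h3⟩
      have hlast := Finset.mem_filter.1 (h2 (k + 1) (by omega))
      by_cases hc : σ (t (k + 1)) = σ ts
      · -- extend by `q`
        have hneq : σ q ≠ σ (t (k + 1)) := by rw [hc]; exact hqmem.2
        have hlt : t (k + 1) < q := by
          rcases Nat.eq_or_lt_of_le hlast.2 with h | h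
          · exact absurd (by rw [h]) hneq
          · exact h
        exact hT a (Alt.snoc (ℓ := k + 1) hTT (fun i hi => h1 i hi) h2 h3 hqmem.1 hlt hneq)
      · exact hT a (Alt.snoc (ℓ := k + 1) hTT (fun i hi => h1 i hi) h2 h3 htsT
          (lt_of_le_of_lt hlast.2 hqlt) (fun h => hc h.symm))
    obtain ⟨p, hdeg, hp, htail⟩ := ih T' hT'alt
    have htail' : ∀ x : ℝ, (q : ℝ) ≤ x → 0 < sg (σ q) * p.eval x := by
      have := htail hne'
      rwa [hmax'] at this
    have hsgq : sg (σ ts) = - sg (σ q) := by
      rw [← sg_not]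
      congr 1
      have := hqmem.2
      cases h1 : σ q <;> cases h2 : σ ts <;> simp_all
    have hfar : ∀ x : ℝ, (q : ℝ) + 1 ≤ x → 0 < sg (σ ts) * (p * (C ((q : ℝ) + 1 / 2) - X)).eval x := by
      intro x hx
      have h1 := htail' x (by linarith)
      rw [eval_mul, eval_sub, eval_C, eval_X, hsgq]
      have h2 : x - ((q : ℝ) + 1 / 2) > 0 := by linarith
      have : -sg (σ q) * (eval x p * ((q : ℝ) + 1 / 2 - x)) =
          (sg (σ q) * eval x p) * (x - ((q : ℝ) + 1 / 2)) := by ring
      rw [this]
      exact mul_pos h1 h2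
    refine ⟨p * (C ((q : ℝ) + 1 / 2) - X), ?_, ?_, ?_⟩
    · refine natDegree_mul_le.trans ?_
      have h1 : (C ((q : ℝ) + 1 / 2) - X : ℝ[X]).natDegree ≤ 1 := by
        refine (natDegree_sub_le _ _).trans ?_
        simp
      omega
    · intro t ht
      by_cases htq : t ≤ q
      · have h1 := hp t (Finset.mem_filter.2 ⟨ht, htq⟩)
        rw [eval_mul, eval_sub, eval_C, eval_X, ← mul_assoc]
        apply mul_pos h1
        have : (t : ℝ) ≤ q := by exact_mod_cast htq
        linarith
      · have hcol : σ t = σ ts := by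
          by_contra hcon
          exact htq (Finset.le_max' _ _ (Finset.mem_filter.2 ⟨ht, hcon⟩))
        rw [hcol]
        apply hfar
        have : q + 1 ≤ t := by omega
        exact_mod_cast this
    · intro h x hx
      apply hfar
      have h1 : (q : ℝ) + 1 ≤ ts := by exact_mod_cast hqlt
      exact h1.trans hx

/-- The point with parameter `t` on the moment curve of `ℝ^d`. -/
def mom (d : ℕ) (t : ℕ) : Fin d → ℝ := fun i => (t : ℝ) ^ (i.val + 1)

/-- The polynomial of an affine functional on the moment curve. -/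
noncomputable def apoly {d : ℕ} (a : Fin d → ℝ) (s : ℝ) : ℝ[X] :=
  ∑ i, C (a i) * X ^ (i.val + 1) - C s

theorem eval_apoly {d : ℕ} (a : Fin d → ℝ) (s : ℝ) (x : ℝ) :
    (apoly a s).eval x = ∑ i, a i * x ^ (i.val + 1) - s := by
  simp [apoly, eval_finsetSum]

theorem natDegree_apoly {d : ℕ} (a : Fin d → ℝ) (s : ℝ) : (apoly a s).natDegree ≤ d := by
  rw [apoly]
  refine (natDegree_sub_le _ _).trans ?_
  rw [natDegree_C, max_le_iff]
  refine ⟨?_, Nat.zero_le _⟩
  apply natDegree_sum_le_of_forall_le
  intro i _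
  refine (natDegree_C_mul_X_pow_le _ _).trans i.2

theorem apoly_ne_zero {d : ℕ} {a : Fin d → ℝ} (s : ℝ) (ha : a ≠ 0) : apoly a s ≠ 0 := by
  intro h
  apply ha
  funext i
  have h1 : (apoly a s).coeff (i.val + 1) = 0 := by rw [h]; simp
  rw [apoly, coeff_sub, finsetSum_coeff, coeff_C_succ, sub_zero] at h1
  simp only [coeff_C_mul, coeff_X_pow] at h1
  rw [Finset.sum_eq_single i] at h1
  · simpa using h1
  · intro j _ hj
    have : ¬ (i.val + 1 = j.val + 1) := by
      intro e; apply hj; ext; omega
    rw [if_neg this, mul_zero]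
  · intro h; exact absurd (Finset.mem_univ _) h

theorem exists_apoly {d : ℕ} (p : ℝ[X]) (hp : p.natDegree ≤ d) :
    ∃ (a : Fin d → ℝ) (s : ℝ), ∀ x : ℝ, p.eval x = ∑ i, a i * x ^ (i.val + 1) - s := by
  refine ⟨fun i => p.coeff (i.val + 1), - p.coeff 0, fun x => ?_⟩
  rw [eval_eq_sum_range' (Nat.lt_succ_of_le hp), Finset.sum_range_succ', Finset.sum_range]
  simp

/-- Hulls of colour classes without long alternations are disjoint. -/
theorem hull_disjoint {V : Type*} (d : ℕ) (c : ℕ → V) (T : Finset ℕ) (u v : V) (huv : u ≠ v)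
    (h1 : ¬ Alt c (d + 2) T u v) (h2 : ¬ Alt c (d + 2) T v u) (z : Fin d → ℝ)
    (hu : z ∈ convexHull ℝ (mom d '' {t | t ∈ T ∧ c t = u}))
    (hv : z ∈ convexHull ℝ (mom d '' {t | t ∈ T ∧ c t = v})) : False := by
  classical
  set σ : ℕ → Bool := fun t => decide (c t = u) with hσ
  set T' := T.filter (fun t => c t = u ∨ c t = v) with hT'
  have hmem : ∀ t ∈ T', t ∈ T ∧ (c t = u ∨ c t = v) := fun t ht => Finset.mem_filter.1 ht
  have hcu : ∀ t ∈ T', σ t = true → c t = u := by
    intro t _ h
    simpa [hσ] using h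
  have hcv : ∀ t ∈ T', σ t = false → c t = v := by
    intro t ht h
    have h3 : c t ≠ u := by simpa [hσ] using h
    exact (hmem t ht).2.resolve_left h3
  have hno : ∀ a, ¬ Alt σ (d + 2) T' a (!a) := by
    rintro a ⟨t, g1, g2, g3⟩
    cases a
    · apply h2
      refine ⟨t, g1, fun i hi => (hmem _ (g2 i hi)).1, fun i hi => ?_⟩
      have := g3 i hi
      split_ifs at this ⊢ with h
      · exact hcv _ (g2 i hi) this
      · exact hcu _ (g2 i hi) this
    · apply h1
      refine ⟨t, g1, fun i hi => (hmem _ (g2 i hi)).1, fun i hi => ?_⟩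
      have := g3 i hi
      split_ifs at this ⊢ with h
      · exact hcu _ (g2 i hi) this
      · exact hcv _ (g2 i hi) this
  obtain ⟨p, hdeg, hp, _⟩ := sep σ d T' hno
  obtain ⟨a, s, hps⟩ := exists_apoly p hdeg
  have hU : convexHull ℝ (mom d '' {t | t ∈ T ∧ c t = u}) ⊆ {z | s < ∑ i, a i * z i} := by
    apply convexHull_min
    · rintro _ ⟨t, ⟨ht, hct⟩, rfl⟩
      have g := hp t (Finset.mem_filter.2 ⟨ht, Or.inl hct⟩)
      have hσt : σ t = true := by simp [hσ, hct]
      rw [hσt, hps] at g
      simp only [sg, if_true, one_mul] at g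
      show s < ∑ i, a i * mom d t i
      simp only [mom]
      linarith
    · exact convex_halfSpace_gt ⟨fun x y => by simp [mul_add, Finset.sum_add_distrib],
        fun r x => by simp [Finset.mul_sum, mul_left_comm]⟩ s
  have hV : convexHull ℝ (mom d '' {t | t ∈ T ∧ c t = v}) ⊆ {z | ∑ i, a i * z i < s} := by
    apply convexHull_min
    · rintro _ ⟨t, ⟨ht, hct⟩, rfl⟩
      have g := hp t (Finset.mem_filter.2 ⟨ht, Or.inr hct⟩)
      have hσt : σ t = false := by simp [hσ, hct, huv.symm]
      rw [hσt, hps] at g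
      simp only [sg, Bool.false_eq_true, if_false] at g
      show ∑ i, a i * mom d t i < s
      simp only [mom]
      linarith
    · exact convex_halfSpace_lt ⟨fun x y => by simp [mul_add, Finset.sum_add_distrib],
        fun r x => by simp [Finset.mul_sum, mul_left_comm]⟩ s
  have g1 := hU hu
  have g2 := hV hv
  simp only [Set.mem_ofPred_eq] at g1 g2
  linarith

/-- A polynomial of degree at most `d` does not alternate `d + 2` times. -/
theorem no_sign_alt (d : ℕ) (p : ℝ[X]) (hp : p.natDegree ≤ d) (t : ℕ → ℕ)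
    (h1 : ∀ i, i + 1 < d + 2 → t i < t (i + 1))
    (h2 : ∀ i, i < d + 2 → 0 < sg (decide (i % 2 = 0)) * p.eval (t i : ℝ)) : False := by
  have hroot : ∀ i : Fin (d + 1), ∃ r : ℝ, (t i : ℝ) < r ∧ r < t (i + 1) ∧ p.eval r = 0 := by
    intro i
    have hi := i.2
    have hlt : (t i : ℝ) < t (i + 1) := by exact_mod_cast h1 i (by omega)
    have g1 := h2 i (by omega)
    have g2 := h2 (i + 1) (by omega)
    have hcont : ContinuousOn (fun x => p.eval x) (Set.Icc (t i : ℝ) (t (i + 1))) :=
      p.continuous.continuousOn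
    rcases Nat.mod_two_eq_zero_or_one i with h | h
    · have h' : ((i : ℕ) + 1) % 2 = 1 := by omega
      rw [h] at g1
      rw [h'] at g2
      simp only [sg, decide_true, if_true, one_mul, one_ne_zero, decide_false, Bool.false_eq_true,
        if_false] at g1 g2
      have := intermediate_value_Ioo' hlt.le hcont
      obtain ⟨r, hr, hr0⟩ := this (Set.mem_Ioo.2 ⟨by linarith, g1⟩ : (0 : ℝ) ∈ _)
      exact ⟨r, hr.1, hr.2, hr0⟩
    · have h' : ((i : ℕ) + 1) % 2 = 0 := by omega
      rw [h] at g1
      rw [h'] at g2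
      simp only [sg, decide_true, if_true, one_mul, one_ne_zero, decide_false, Bool.false_eq_true,
        if_false] at g1 g2
      have := intermediate_value_Ioo hlt.le hcont
      obtain ⟨r, hr, hr0⟩ := this (Set.mem_Ioo.2 ⟨by linarith, g2⟩ : (0 : ℝ) ∈ _)
      exact ⟨r, hr.1, hr.2, hr0⟩
  choose r hr1 hr2 hr3 using hroot
  have hmono : ∀ i j, i ≤ j → j < d + 2 → t i ≤ t j := by
    intro i j hij hj
    induction j, hij using Nat.le_induction with
    | base => exact le_rfl
    | succ j hij ih => exact (ih (by omega)).trans (h1 j hj).le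
  have hinj : Function.Injective r := by
    have key : ∀ i j : Fin (d + 1), i < j → r i < r j := by
      intro i j hij
      have hj := j.2
      have g : t (i + 1) ≤ t j := hmono _ _ hij (by omega)
      have g' : (t (i + 1) : ℝ) ≤ t j := by exact_mod_cast g
      linarith [hr2 i, hr1 j]
    intro i j he
    rcases lt_trichotomy i j with h | h | h
    · exact absurd he (key i j h).ne
    · exact h
    · exact absurd he (key j i h).ne'
  have hp0 : p = 0 := by
    apply Polynomial.eq_zero_of_natDegree_lt_card_of_eval_eq_zero p hinj hr3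
    rw [Fintype.card_fin]
    omega
  have := h2 0 (by omega)
  rw [hp0] at this
  simp at this

/-- Hulls of colour classes with a long alternation intersect. -/
theorem hull_inter {V : Type*} (d : ℕ) (c : ℕ → V) (T : Finset ℕ) (u v : V)
    (h : Alt c (d + 2) T u v) :
    ∃ z, z ∈ convexHull ℝ (mom d '' {t | t ∈ T ∧ c t = u}) ∧
      z ∈ convexHull ℝ (mom d '' {t | t ∈ T ∧ c t = v}) := by
  classical
  by_contra hcon
  push Not at hcon
  have hfin : ∀ w : V, (mom d '' {t | t ∈ T ∧ c t = w}).Finite := by
    intro w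
    apply Set.Finite.image
    exact (Finset.finite_toSet T).subset (fun t ht => ht.1)
  have hdisj : Disjoint (convexHull ℝ (mom d '' {t | t ∈ T ∧ c t = u}))
      (convexHull ℝ (mom d '' {t | t ∈ T ∧ c t = v})) :=
    Set.disjoint_left.2 hcon
  obtain ⟨f, s, s', hs1, hss, hs2⟩ := geometric_hahn_banach_compact_closed (convex_convexHull ℝ _)
    ((hfin u).isCompact_convexHull ℝ) (convex_convexHull ℝ _)
    ((hfin v).isCompact_convexHull ℝ).isClosed hdisj
  obtain ⟨t, g1, g2, g3⟩ := h
  have hf : ∀ z : Fin d → ℝ, f z = ∑ i, f (Pi.single i 1) * z i := by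
    intro z
    have : z = ∑ i, z i • (Pi.single i (1 : ℝ) : Fin d → ℝ) := by
      conv_lhs => rw [← Finset.univ_sum_single z]
      refine Finset.sum_congr rfl fun i _ => ?_
      rw [← Pi.single_smul, smul_eq_mul, mul_one]
    conv_lhs => rw [this]
    rw [map_sum]
    refine Finset.sum_congr rfl fun i _ => ?_
    rw [map_smul, smul_eq_mul, mul_comm]
  have hev : ∀ x : ℕ, (apoly (fun i => - f (Pi.single i 1)) (-s)).eval (x : ℝ) =
      s - f (mom d x) := by
    intro x
    rw [eval_apoly, hf (mom d x)]
    simp only [mom, neg_mul, Finset.sum_neg_distrib]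
    ring
  apply no_sign_alt d (apoly (fun i => - f (Pi.single i 1)) (-s)) (natDegree_apoly _ _) t g1
  intro i hi
  rw [hev]
  have g4 := g3 i hi
  rcases Nat.mod_two_eq_zero_or_one i with h | h
  · rw [h] at g4 ⊢
    simp only [if_true] at g4
    have := hs1 _ (subset_convexHull ℝ _ ⟨t i, ⟨g2 i hi, g4⟩, rfl⟩)
    simp only [sg, decide_true, if_true, one_mul]
    linarith
  · rw [h] at g4 ⊢
    simp only [one_ne_zero, if_false] at g4
    have := hs2 _ (subset_convexHull ℝ _ ⟨t i, ⟨g2 i hi, g4⟩, rfl⟩)
    simp only [sg, one_ne_zero, decide_false, Bool.false_eq_true, if_false]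
    linarith

end Pool.Agent.Q235.Tvb
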