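import Pool.Agent.Q235.Tverberg.Words

/-!
# Reducing a two-sided word to a short one

The letters are split in two sides; a shortest subword which keeps all alternations of length `ℓ`
between letters of different sides is short.
-/

set_option autoImplicit false

namespace Pool.Agent.Q235.Tvb

open Finset

variable {V : Type*}

theorem Alt.replace {c : ℕ → V} {ℓ : ℕ} {T : Finset ℕ} {a b : V} {i j : ℕ} (hab : a ≠ b)
    (hcol : c i = c j) (hj : j ∈ T) (hij : i ≠ j)
    (hnext : ∀ x ∈ T, i < x → c x ≠ c i → (c x = a ∨ c x = b) → (c i = a ∨ c i = b) → j < x)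
    (hprev : ∀ x ∈ T, x < i → c x ≠ c i → (c x = a ∨ c x = b) → (c i = a ∨ c i = b) → x < j)
    (h : Alt c ℓ T a b) : Alt c ℓ (T.erase i) a b := by
  obtain ⟨t, h1, h2, h3⟩ := h
  have hor : ∀ k, k < ℓ → c (t k) = a ∨ c (t k) = b := by
    intro k hk
    rw [h3 k hk]
    split_ifs
    · exact Or.inl rfl
    · exact Or.inr rfl
  have hne : ∀ k, k + 1 < ℓ → c (t (k + 1)) ≠ c (t k) := by
    intro k hk
    rw [h3 k (by omega), h3 (k + 1) hk]
    rcases Nat.mod_two_eq_zero_or_one k with h | h
    · have h' : (k + 1) % 2 = 1 := by omega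
      simp [h, h', hab.symm]
    · have h' : (k + 1) % 2 = 0 := by omega
      simp [h, h', hab]
  refine ⟨fun k => if t k = i then j else t k, ?_, ?_, ?_⟩
  · intro k hk
    dsimp only
    by_cases e1 : t k = i
    · have hlt := h1 k hk
      have e2 : t (k + 1) ≠ i := by omega
      rw [if_pos e1, if_neg e2]
      apply hnext _ (h2 _ hk) (by omega) _ (hor _ hk)
      · rw [← e1]; exact hor k (by omega)
      · rw [← e1]; exact hne k hk
    · rw [if_neg e1]
      by_cases e2 : t (k + 1) = i
      · rw [if_pos e2]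
        have hlt := h1 k hk
        apply hprev _ (h2 _ (by omega)) (by omega) _ (hor _ (by omega))
        · rw [← e2]; exact hor _ hk
        · rw [← e2]; exact (hne k hk).symm
      · rw [if_neg e2]; exact h1 k hk
  · intro k hk
    dsimp only
    split_ifs with e
    · exact Finset.mem_erase.2 ⟨hij.symm, hj⟩
    · exact Finset.mem_erase.2 ⟨e, h2 k hk⟩
  · intro k hk
    dsimp only
    rw [← h3 k hk]
    split_ifs with e
    · rw [e, hcol]
    · rfl

/-- `T ⊆ T0` keeps all alternations of length `ℓ` between letters on different sides. -/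
def Good (c : ℕ → V) (side : V → Bool) (ℓ : ℕ) (T0 T : Finset ℕ) : Prop :=
  T ⊆ T0 ∧ ∀ a b, side a ≠ side b → (Alt c ℓ T0 a b ∨ Alt c ℓ T0 b a) →
    (Alt c ℓ T a b ∨ Alt c ℓ T b a)

theorem exists_min_good (c : ℕ → V) (side : V → Bool) (ℓ : ℕ) (T0 : Finset ℕ) :
    ∃ T, Good c side ℓ T0 T ∧ ∀ T', Good c side ℓ T0 T' → T.card ≤ T'.card := by
  classical
  have hex : ∃ k, ∃ T, Good c side ℓ T0 T ∧ T.card = k :=
    ⟨T0.card, T0, ⟨Finset.Subset.refl _, fun _ _ _ h => h⟩, rfl⟩
  obtain ⟨T, hT, hc⟩ := Nat.find_spec hex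
  refine ⟨T, hT, fun T' hT' => ?_⟩
  rw [hc]
  exact Nat.find_min' hex ⟨T', hT', rfl⟩

variable {c : ℕ → V} {side : V → Bool} {ℓ : ℕ} {T0 T : Finset ℕ}

theorem no_good_erase (hmin : ∀ T', Good c side ℓ T0 T' → T.card ≤ T'.card) {i : ℕ} (hi : i ∈ T) :
    ¬ Good c side ℓ T0 (T.erase i) := by
  intro h
  have h1 := hmin _ h
  rw [Finset.card_erase_of_mem hi] at h1
  have : 0 < T.card := Finset.card_pos.2 ⟨i, hi⟩
  omega

theorem proper_of_min (hT : Good c side ℓ T0 T)
    (hmin : ∀ T', Good c side ℓ T0 T' → T.card ≤ T'.card) : Proper c T := by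
  intro i hi j hj hij hcons hc
  apply no_good_erase hmin hi
  refine ⟨(Finset.erase_subset _ _).trans hT.1, fun a b hab h => ?_⟩
  have key : ∀ a b : V, side a ≠ side b → Alt c ℓ T a b → Alt c ℓ (T.erase i) a b := by
    intro a b hab h
    apply Alt.replace (fun e => hab (by rw [e])) hc hj hij.ne _ _ h
    · intro x hx hix hcx _ _
      have h1 : ¬ (x < j) := fun hlt => hcons x hx ⟨hix, hlt⟩
      have h2 : x ≠ j := by rintro rfl; exact hcx hc.symm
      omega
    · intro x hx hix _ _ _
      omega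
  rcases hT.2 a b hab h with h | h
  · exact Or.inl (key a b hab h)
  · exact Or.inr (key b a hab.symm h)

theorem window_card (hℓ : 2 ≤ ℓ) (hT : Good c side ℓ T0 T)
    (hmin : ∀ T', Good c side ℓ T0 T' → T.card ≤ T'.card) {p q : V} (hpq : side p ≠ side q)
    (α β : ℕ) (hw : ∀ t ∈ T, α ≤ t → t ≤ β → c t = p ∨ c t = q) :
    (T.filter (fun t => α ≤ t ∧ t ≤ β)).card ≤ ℓ := by
  classical
  by_contra hcon
  push Not at hcon
  have hprop := proper_of_min hT hmin
  set W := T.filter (fun t => α ≤ t ∧ t ≤ β) with hW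
  have hWT : ∀ x ∈ W, x ∈ T ∧ α ≤ x ∧ x ≤ β := fun x hx => Finset.mem_filter.1 hx
  set w : ℕ → ℕ := fun k => if h : k < W.card then W.orderEmbOfFin rfl ⟨k, h⟩ else 0 with hwdef
  have w_eq : ∀ k (h : k < W.card), w k = W.orderEmbOfFin rfl ⟨k, h⟩ := by
    intro k h
    simp only [hwdef, dif_pos h]
  have w_mem : ∀ k, k < W.card → w k ∈ W := by
    intro k h
    rw [w_eq k h]
    exact Finset.orderEmbOfFin_mem _ _ _
  have w_lt : ∀ k l, k < l → l < W.card → w k < w l := by
    intro k l hkl hl
    rw [w_eq k (by omega), w_eq l hl]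
    exact (W.orderEmbOfFin rfl).strictMono hkl
  have w_cons : ∀ k, k + 1 < W.card → ∀ x ∈ T, ¬ (w k < x ∧ x < w (k + 1)) := by
    rintro k hk x hx ⟨h1, h2⟩
    have hxW : x ∈ W := by
      have g1 := hWT _ (w_mem k (by omega))
      have g2 := hWT _ (w_mem (k + 1) hk)
      exact Finset.mem_filter.2 ⟨hx, by omega, by omega⟩
    obtain ⟨⟨j, hj⟩, rfl⟩ : ∃ j, W.orderEmbOfFin rfl j = x := by
      have : x ∈ Set.range (W.orderEmbOfFin rfl) := by
        rw [Finset.range_orderEmbOfFin]; exact hxW
      exact this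
    rw [← w_eq j hj] at h1 h2
    have g1 : k < j := by
      by_contra hlt
      rcases Nat.eq_or_lt_of_le (not_lt.1 hlt) with h | h
      · subst h; omega
      · have := w_lt j k h (by omega); omega
    have g2 : j < k + 1 := by
      by_contra hlt
      rcases Nat.eq_or_lt_of_le (not_lt.1 hlt) with h | h
      · subst h; omega
      · have := w_lt (k + 1) j h hj; omega
    omega
  have w_or : ∀ k, k < W.card → c (w k) = p ∨ c (w k) = q := by
    intro k hk
    have g := hWT _ (w_mem k hk)
    exact hw _ g.1 g.2.1 g.2.2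
  have w_ne : ∀ k, k + 1 < W.card → c (w k) ≠ c (w (k + 1)) := by
    intro k hk
    exact hprop _ (hWT _ (w_mem k (by omega))).1 _ (hWT _ (w_mem (k + 1) hk)).1
      (w_lt k (k + 1) (by omega) hk) (w_cons k hk)
  have w_two : ∀ k, k + 2 < W.card → c (w (k + 2)) = c (w k) := by
    intro k hk
    have h1 := w_ne k (by omega)
    have h2 := w_ne (k + 1) hk
    rcases w_or k (by omega) with e1 | e1 <;> rcases w_or (k + 1) (by omega) with e2 | e2 <;>
      rcases w_or (k + 2) hk with e3 | e3
    all_goals first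
      | exact e3.trans e1.symm
      | exact absurd (e1.trans e2.symm) h1
      | exact absurd (e2.trans e3.symm) h2
  have w_alt : ∀ k, k < W.card → c (w k) = if k % 2 = 0 then c (w 0) else c (w 1) := by
    intro k
    induction k using Nat.strong_induction_on with
    | _ k ih =>
      intro hk
      match k, ih, hk with
      | 0, _, _ => simp
      | 1, _, _ => simp
      | (k + 2), ih, hk =>
        rw [w_two k hk, ih k (by omega) (by omega)]
        have : (k + 2) % 2 = k % 2 := by omega
        rw [this]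
  have hℓT : w ℓ ∈ T := (hWT _ (w_mem ℓ hcon)).1
  apply no_good_erase hmin hℓT
  refine ⟨(Finset.erase_subset _ _).trans hT.1, fun a b hab h => ?_⟩
  by_cases hpair : (a = p ∧ b = q) ∨ (a = q ∧ b = p)
  · -- the pair `p, q` itself
    have halt : Alt c ℓ (T.erase (w ℓ)) (c (w 0)) (c (w 1)) := by
      refine ⟨w, fun i hi => w_lt i (i + 1) (by omega) (by omega), fun i hi => ?_,
        fun i hi => w_alt i (by omega)⟩
      refine Finset.mem_erase.2 ⟨?_, (hWT _ (w_mem i (by omega))).1⟩
      have := w_lt i ℓ hi hcon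
      omega
    have h01 := w_ne 0 (by omega)
    rw [zero_add] at h01
    rcases w_or 0 (by omega) with e1 | e1 <;> rcases w_or 1 (by omega) with e2 | e2
    · exact absurd (by rw [e1, e2]) h01
    · rw [e1, e2] at halt
      rcases hpair with ⟨rfl, rfl⟩ | ⟨rfl, rfl⟩
      · exact Or.inl halt
      · exact Or.inr halt
    · rw [e1, e2] at halt
      rcases hpair with ⟨rfl, rfl⟩ | ⟨rfl, rfl⟩
      · exact Or.inr halt
      · exact Or.inl halt
    · exact absurd (by rw [e1, e2]) h01
  · have hℓ2 : ℓ - 2 + 2 = ℓ := by omega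
    have hcol : c (w ℓ) = c (w (ℓ - 2)) := by
      have := w_two (ℓ - 2) (by omega)
      rwa [hℓ2] at this
    have hlt2 : w (ℓ - 2) < w ℓ := w_lt _ _ (by omega) hcon
    have key : ∀ a b : V, side a ≠ side b → ¬ ((a = p ∧ b = q) ∨ (a = q ∧ b = p)) →
        Alt c ℓ T a b → Alt c ℓ (T.erase (w ℓ)) a b := by
      intro a b hab hpair h
      apply Alt.replace (fun e => hab (by rw [e])) hcol (hWT _ (w_mem _ (by omega))).1 hlt2.ne' _ _ h
      · intro x _ hx _ _ _
        omega
      · intro x hx hlt hne hxab hiab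
        by_contra hge
        push Not at hge
        have g1 := hWT _ (w_mem (ℓ - 2) (by omega))
        have g2 := hWT _ (w_mem ℓ hcon)
        have hxw := hw x hx (by omega) (by omega)
        have hiw := hw (w ℓ) g2.1 g2.2.1 g2.2.2
        apply hpair
        rcases hxab with e1 | e1 <;> rcases hiab with e2 | e2 <;> rcases hxw with e3 | e3 <;>
          rcases hiw with e4 | e4
        all_goals first
          | exact absurd (e1.trans e2.symm) hne
          | exact absurd (e3.trans e4.symm) hne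
          | exact Or.inl ⟨e1.symm.trans e3, e2.symm.trans e4⟩
          | exact Or.inl ⟨e2.symm.trans e4, e1.symm.trans e3⟩
          | exact Or.inr ⟨e1.symm.trans e3, e2.symm.trans e4⟩
          | exact Or.inr ⟨e2.symm.trans e4, e1.symm.trans e3⟩
    rcases hT.2 a b hab h with h | h
    · exact Or.inl (key a b hab hpair h)
    · refine Or.inr (key b a hab.symm ?_ h)
      rintro (⟨e1, e2⟩ | ⟨e1, e2⟩)
      · exact hpair (Or.inr ⟨e2, e1⟩)
      · exact hpair (Or.inl ⟨e2, e1⟩)

/-- The part of `T` whose colours are on a given side. -/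
def part (c : ℕ → V) (side : V → Bool) (T : Finset ℕ) (s : Bool) : Finset ℕ :=
  T.filter (fun t => side (c t) = s)

theorem card_le_of_min (hℓ : 2 ≤ ℓ) (hT : Good c side ℓ T0 T)
    (hmin : ∀ T', Good c side ℓ T0 T' → T.card ≤ T'.card) {v1 v0 : V} (hv1 : side v1 = true)
    (hv0 : side v0 = false) :
    T.card ≤ ℓ * ((Starts c (part c side T true)).card + (Starts c (part c side T false)).card + 1) := by
  classical
  set E := Starts c (part c side T true) ∪ Starts c (part c side T false) with hE
  have hEcard : E.card ≤ (Starts c (part c side T true)).card +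
      (Starts c (part c side T false)).card := Finset.card_union_le _ _
  set g : ℕ → ℕ := fun t => (E.filter (fun e => e ≤ t)).card with hg
  have hmono : ∀ s t, s ≤ t → g s ≤ g t := by
    intro s t hst
    apply Finset.card_le_card
    intro e he
    rw [Finset.mem_filter] at he ⊢
    exact ⟨he.1, by omega⟩
  have hstrict : ∀ s t, ∀ e ∈ E, s < e → e ≤ t → g s < g t := by
    intro s t e he hse het
    apply Finset.card_lt_card
    rw [Finset.ssubset_iff_of_subset]
    · exact ⟨e, Finset.mem_filter.2 ⟨he, het⟩, fun h => by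
        have := (Finset.mem_filter.1 h).2; omega⟩
    · intro e' he'
      rw [Finset.mem_filter] at he' ⊢
      exact ⟨he'.1, by omega⟩
  have hmaps : ∀ t ∈ T, g t ∈ Finset.range (E.card + 1) := by
    intro t _
    rw [Finset.mem_range, Nat.lt_succ_iff]
    exact Finset.card_le_card (Finset.filter_subset _ _)
  have hfib : ∀ k ∈ Finset.range (E.card + 1), (T.filter (fun t => g t = k)).card ≤ ℓ := by
    intro k _
    by_cases hne : (T.filter (fun t => g t = k)).Nonempty
    swap
    · rw [Finset.not_nonempty_iff_eq_empty] at hne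
      rw [hne]; simp
    set α := (T.filter (fun t => g t = k)).min' hne with hα
    set β := (T.filter (fun t => g t = k)).max' hne with hβ
    have hαk : g α = k := (Finset.mem_filter.1 (Finset.min'_mem _ hne)).2
    have hβk : g β = k := (Finset.mem_filter.1 (Finset.max'_mem _ hne)).2
    have hsame : ∀ s : Bool, ∀ i ∈ T, ∀ j ∈ T, side (c i) = s → side (c j) = s → α ≤ i → i < j →
        j ≤ β → c i = c j := by
      intro s i hi j hj hsi hsj h1 h2 h3
      by_contra hne'
      obtain ⟨e, he, he1, he2⟩ := exists_start (T := part c side T s)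
        (Finset.mem_filter.2 ⟨hi, hsi⟩) (Finset.mem_filter.2 ⟨hj, hsj⟩) h2 hne'
      have heE : e ∈ E := by
        rw [hE, Finset.mem_union]
        cases s
        · exact Or.inr he
        · exact Or.inl he
      have := hstrict α β e heE (by omega) (by omega)
      omega
    have hsame' : ∀ s : Bool, ∀ i ∈ T, ∀ j ∈ T, side (c i) = s → side (c j) = s → α ≤ i → i ≤ β →
        α ≤ j → j ≤ β → c i = c j := by
      intro s i hi j hj hsi hsj h1 h2 h3 h4
      rcases Nat.lt_trichotomy i j with h | h | h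
      · exact hsame s i hi j hj hsi hsj h1 h h4
      · rw [h]
      · exact (hsame s j hj i hi hsj hsi h3 h h2).symm
    have hpick : ∀ s : Bool, ∃ p : V, side p = s ∧ ∀ t ∈ T, α ≤ t → t ≤ β → side (c t) = s →
        c t = p := by
      intro s
      by_cases hex : ∃ t ∈ T, α ≤ t ∧ t ≤ β ∧ side (c t) = s
      · obtain ⟨t, ht, h1, h2, h3⟩ := hex
        exact ⟨c t, h3, fun t' ht' g1 g2 g3 => hsame' s t' ht' t ht g3 h3 g1 g2 h1 h2⟩
      · push Not at hex
        cases s
        · exact ⟨v0, hv0, fun t ht g1 g2 g3 => absurd g3 (hex t ht g1 g2)⟩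
        · exact ⟨v1, hv1, fun t ht g1 g2 g3 => absurd g3 (hex t ht g1 g2)⟩
    obtain ⟨p, hp, hp'⟩ := hpick true
    obtain ⟨q, hq, hq'⟩ := hpick false
    have hwin := window_card hℓ hT hmin (p := p) (q := q) (by rw [hp, hq]; decide) α β (by
      intro t ht h1 h2
      cases h : side (c t)
      · exact Or.inr (hq' t ht h1 h2 h)
      · exact Or.inl (hp' t ht h1 h2 h))
    refine le_trans (Finset.card_le_card ?_) hwin
    intro t ht
    have ht' := Finset.mem_filter.1 ht
    exact Finset.mem_filter.2 ⟨ht'.1, Finset.min'_le _ _ ht, Finset.le_max' _ _ ht⟩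
  have h1 := Finset.card_le_mul_card_image_of_maps_to hmaps ℓ hfib
  rw [Finset.card_range] at h1
  exact h1.trans (Nat.mul_le_mul_left _ (by omega))

/-- The short subword, for alternations of length five. -/
theorem exists_short (c : ℕ → V) (side : V → Bool) (T0 : Finset ℕ) (m : ℕ) (s1 s0 : Finset V)
    (h1 : ∀ v, v ∈ s1 ↔ side v = true) (h0 : ∀ v, v ∈ s0 ↔ side v = false)
    (hc1 : s1.card ≤ 2 ^ m) (hc0 : s0.card ≤ 2 ^ m) (hn1 : s1.Nonempty) (hn0 : s0.Nonempty)
    (hind : ∀ a b, a ≠ b → side a = side b → ¬ Alt c 5 T0 a b) :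
    ∃ T ⊆ T0, T.card ≤ 5 * (2 * (2 ^ m * (2 * m + 1)) + 1) ∧
      ∀ a b, side a ≠ side b → ((Alt c 5 T0 a b ∨ Alt c 5 T0 b a) ↔
        (Alt c 5 T a b ∨ Alt c 5 T b a)) := by
  classical
  obtain ⟨T, hT, hmin⟩ := exists_min_good c side 5 T0
  obtain ⟨v1, hv1⟩ := hn1
  obtain ⟨v0, hv0⟩ := hn0
  have hcard := card_le_of_min (by norm_num) hT hmin ((h1 v1).1 hv1) ((h0 v0).1 hv0)
  have hb : ∀ (s : Bool) (S : Finset V), (∀ v, v ∈ S ↔ side v = s) → S.card ≤ 2 ^ m →
      (Starts c (part c side T s)).card ≤ 2 ^ m * (2 * m + 1) := by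
    intro s S hS hcS
    have hsub : Starts c (part c side T s) ⊆ T0 :=
      (Starts_subset _ _).trans ((Finset.filter_subset _ _).trans hT.1)
    apply ds3 c m S _ hcS
    · intro t ht
      rw [hS]
      exact (Finset.mem_filter.1 (Starts_subset _ _ ht)).2
    · exact starts_proper _ _
    · intro a ha b hb hab hAlt
      exact hind a b hab (((hS a).1 ha).trans ((hS b).1 hb).symm) (hAlt.mono hsub)
  have b1 := hb true s1 h1 hc1
  have b0 := hb false s0 h0 hc0
  refine ⟨T, hT.1, ?_, fun a b hab => ⟨hT.2 a b hab, ?_⟩⟩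
  · refine hcard.trans (Nat.mul_le_mul_left _ ?_)
    omega
  · rintro (h | h)
    · exact Or.inl (h.mono hT.1)
    · exact Or.inr (h.mono hT.1)

end Pool.Agent.Q235.Tvb
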