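import Mathlib.Data.Finset.Max
import Mathlib.Data.Finset.Sort
import Mathlib.Data.Finset.Card
import Mathlib.Data.Finset.Prod
import Mathlib.Data.Fintype.Basic
import Mathlib.Algebra.Order.BigOperators.Group.Finset
import Mathlib.Combinatorics.Enumerative.DoubleCounting
import Mathlib.Tactic.Linarith
import Mathlib.Tactic.Ring

/-!
# Words on a finite set of positions: alternations and run starts

A word is a colouring `c : ℕ → V` restricted to a finite set `T` of positions.
-/

set_option autoImplicit false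

namespace Pool.Agent.Q235.Tvb

open Finset

variable {V : Type*}

/-- `T` contains positions `t 0 < t 1 < ... < t (ℓ-1)` coloured `a b a b ...`. -/
def Alt (c : ℕ → V) (ℓ : ℕ) (T : Finset ℕ) (a b : V) : Prop :=
  ∃ t : ℕ → ℕ, (∀ i, i + 1 < ℓ → t i < t (i + 1)) ∧ (∀ i, i < ℓ → t i ∈ T) ∧
    ∀ i, i < ℓ → c (t i) = if i % 2 = 0 then a else b

theorem Alt.mono {c : ℕ → V} {ℓ : ℕ} {T T' : Finset ℕ} {a b : V} (h : T ⊆ T') :
    Alt c ℓ T a b → Alt c ℓ T' a b := by
  rintro ⟨t, h1, h2, h3⟩
  exact ⟨t, h1, fun i hi => h (h2 i hi), h3⟩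

/-- Consecutive elements of `T` have distinct colours. -/
def Proper (c : ℕ → V) (T : Finset ℕ) : Prop :=
  ∀ i ∈ T, ∀ j ∈ T, i < j → (∀ k ∈ T, ¬ (i < k ∧ k < j)) → c i ≠ c j

open Classical in
/-- The positions of `T` which start a run (a maximal block of one colour). -/
noncomputable def Starts (c : ℕ → V) (T : Finset ℕ) : Finset ℕ :=
  T.filter (fun j => ∀ i ∈ T, i < j → (∀ k ∈ T, ¬ (i < k ∧ k < j)) → c i ≠ c j)

theorem Starts_subset (c : ℕ → V) (T : Finset ℕ) : Starts c T ⊆ T := by
  classical
  exact Finset.filter_subset _ _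

/-- The predecessor of `j` in `T`. -/
theorem exists_pred {T : Finset ℕ} {i j : ℕ} (hi : i ∈ T) (hij : i < j) :
    ∃ p ∈ T, i ≤ p ∧ p < j ∧ ∀ k ∈ T, ¬ (p < k ∧ k < j) := by
  have hne : (T.filter (fun k => k < j)).Nonempty := ⟨i, by simp [hi, hij]⟩
  refine ⟨(T.filter (fun k => k < j)).max' hne, ?_, ?_, ?_, ?_⟩
  · exact (Finset.mem_filter.1 (Finset.max'_mem _ hne)).1
  · exact Finset.le_max' _ _ (by simp [hi, hij])
  · exact (Finset.mem_filter.1 (Finset.max'_mem _ hne)).2
  · rintro k hk ⟨h1, h2⟩
    have := Finset.le_max' (T.filter (fun k => k < j)) k (by simp [hk, h2])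
    omega

theorem exists_start {c : ℕ → V} {T : Finset ℕ} {i j : ℕ} (hi : i ∈ T) (hj : j ∈ T)
    (hij : i < j) (hc : c i ≠ c j) : ∃ k ∈ Starts c T, i < k ∧ k ≤ j := by
  classical
  by_contra hcon
  push Not at hcon
  have key : ∀ k, k ∈ T → i ≤ k → k ≤ j → c k = c i := by
    intro k
    induction k using Nat.strong_induction_on with
    | _ k ih =>
      intro hk h1 h2
      rcases Nat.eq_or_lt_of_le h1 with h | h
      · rw [h]
      · have hns : k ∉ Starts c T := fun hs => absurd h2 (by have := hcon k hs h; omega)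
        have h3 : ¬ (∀ i ∈ T, i < k → (∀ l ∈ T, ¬ (i < l ∧ l < k)) → c i ≠ c k) :=
          fun h => hns (Finset.mem_filter.2 ⟨hk, h⟩)
        simp only [not_forall, ne_eq, not_not] at h3
        obtain ⟨p, hp, hpk, hcons, hcp⟩ := h3
        have hip : i ≤ p := by
          by_contra hlt
          exact hcons i hi ⟨by omega, h⟩
        rw [← hcp]
        exact ih p hpk hp hip (by omega)
  exact hc (key j hj hij.le le_rfl).symm

theorem starts_proper (c : ℕ → V) (T : Finset ℕ) : Proper c (Starts c T) := by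
  classical
  intro i hi j hj hij hcons hc
  have hiT := Starts_subset c T hi
  have hjT := Starts_subset c T hj
  obtain ⟨p, hp, h1, h2, h3⟩ := exists_pred hiT hij
  have hjs : c p ≠ c j := (Finset.mem_filter.1 hj).2 p hp h2 h3
  have hip : c i ≠ c p := by rw [hc]; exact hjs.symm
  have hlt : i < p := by
    rcases Nat.eq_or_lt_of_le h1 with h | h
    · exact absurd (by rw [h]) hip
    · exact h
  obtain ⟨k, hk, hk1, hk2⟩ := exists_start hiT hp hlt hip
  exact hcons k hk ⟨hk1, by omega⟩

theorem alt5 {c : ℕ → V} {T : Finset ℕ} {a b : V} {x1 x2 x3 x4 x5 : ℕ}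
    (h1 : x1 ∈ T) (h2 : x2 ∈ T) (h3 : x3 ∈ T) (h4 : x4 ∈ T) (h5 : x5 ∈ T)
    (h12 : x1 < x2) (h23 : x2 < x3) (h34 : x3 < x4) (h45 : x4 < x5)
    (c1 : c x1 = a) (c2 : c x2 = b) (c3 : c x3 = a) (c4 : c x4 = b) (c5 : c x5 = a) :
    Alt c 5 T a b := by
  refine ⟨fun i => if i = 0 then x1 else if i = 1 then x2 else if i = 2 then x3 else
    if i = 3 then x4 else x5, ?_, ?_, ?_⟩
  · intro i hi
    have : i = 0 ∨ i = 1 ∨ i = 2 ∨ i = 3 := by omega
    rcases this with rfl | rfl | rfl | rfl <;> simpa
  · intro i hi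
    have : i = 0 ∨ i = 1 ∨ i = 2 ∨ i = 3 ∨ i = 4 := by omega
    rcases this with rfl | rfl | rfl | rfl | rfl <;> simpa
  · intro i hi
    have : i = 0 ∨ i = 1 ∨ i = 2 ∨ i = 3 ∨ i = 4 := by omega
    rcases this with rfl | rfl | rfl | rfl | rfl <;> simpa

/-- Davenport-Schinzel sequences of order three: the bound `2^m (2 m + 1)` for `2^m` letters. -/
theorem ds3 (c : ℕ → V) (m : ℕ) : ∀ (s : Finset V) (T : Finset ℕ), s.card ≤ 2 ^ m →
    (∀ t ∈ T, c t ∈ s) → Proper c T → (∀ a ∈ s, ∀ b ∈ s, a ≠ b → ¬ Alt c 5 T a b) →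
    T.card ≤ 2 ^ m * (2 * m + 1) := by
  classical
  induction m with
  | zero =>
    intro s T hs hT hp _
    simp only [pow_zero, mul_zero, zero_add, mul_one] at hs ⊢
    by_contra hcon
    push Not at hcon
    obtain ⟨i, hi, j, hj, hij⟩ := Finset.one_lt_card.1 hcon
    have main : ∀ i ∈ T, ∀ j ∈ T, i < j → False := by
      intro i hi j hj hij
      obtain ⟨p, hp1, _, h2, h3⟩ := exists_pred hi hij
      exact hp p hp1 j hj h2 h3 (Finset.card_le_one.1 hs _ (hT p hp1) _ (hT j hj))
    rcases Nat.lt_or_gt_of_ne hij with h | h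
    · exact main i hi j hj h
    · exact main j hj i hi h
  | succ m ih =>
    intro s T hs hT hp hA
    -- one half
    have half : ∀ s1 s2 : Finset V, s1 ∪ s2 = s → Disjoint s1 s2 → s1.card ≤ 2 ^ m →
        s2.card ≤ 2 ^ m → (T.filter (fun t => c t ∈ s1)).card ≤ 2 ^ m * (2 * m + 1) + 2 * 2 ^ m := by
      intro s1 s2 hu hd h1 h2
      set T1 := T.filter (fun t => c t ∈ s1) with hT1
      have hT1T : T1 ⊆ T := Finset.filter_subset _ _
      have hS : (Starts c T1).card ≤ 2 ^ m * (2 * m + 1) := by
        apply ih s1 (Starts c T1) h1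
        · intro t ht
          exact (Finset.mem_filter.1 (Starts_subset c T1 ht)).2
        · exact starts_proper c T1
        · intro a ha b hb hab hAlt
          exact hA a (hu ▸ Finset.mem_union_left _ ha) b (hu ▸ Finset.mem_union_left _ hb) hab
            (hAlt.mono ((Starts_subset c T1).trans hT1T))
      have hD : (T1 \ Starts c T1).card ≤ (s2 ×ˢ (Finset.univ : Finset Bool)).card := by
        -- data of a duplicate
        have hdup : ∀ j ∈ T1 \ Starts c T1, ∃ i r, i ∈ T1 ∧ r ∈ T ∧ i < r ∧ r < j ∧ c i = c j ∧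
            (∀ k ∈ T1, ¬ (i < k ∧ k < j)) ∧ c r ∈ s2 := by
          intro j hj
          rw [Finset.mem_sdiff] at hj
          obtain ⟨hj1, hj2⟩ := hj
          have h3 : ¬ (∀ i ∈ T1, i < j → (∀ l ∈ T1, ¬ (i < l ∧ l < j)) → c i ≠ c j) :=
            fun h => hj2 (Finset.mem_filter.2 ⟨hj1, h⟩)
          simp only [not_forall, ne_eq, not_not] at h3
          obtain ⟨i, hi, hij, hcons, hc⟩ := h3
          obtain ⟨r, hr, hir, hrj, hr3⟩ := exists_pred (hT1T hi) hij
          have hri : i ≠ r := by
            rintro rfl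
            exact hp i hr j (hT1T hj1) hrj hr3 hc
          have hir' : i < r := by omega
          refine ⟨i, r, hi, hr, hir', hrj, hc, hcons, ?_⟩
          have hrs : c r ∈ s := hT r hr
          rw [← hu, Finset.mem_union] at hrs
          rcases hrs with h | h
          · exact absurd ⟨hir', hrj⟩ (hcons r (Finset.mem_filter.2 ⟨hr, h⟩))
          · exact h
        choose! I R hI hR hIR hRJ hIJ hcons hRs using hdup
        apply Finset.card_le_card_of_injOn
          (fun j => (c (R j), decide (∃ k ∈ T, j < k ∧ c k = c (R j))))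
        · intro j hj
          simp only [Finset.coe_product, Set.mem_prod, Finset.mem_coe, Finset.coe_univ, Set.mem_univ,
            and_true]
          exact hRs j hj
        · -- a duplicate cannot have `b` on both sides
          have key : ∀ j ∈ T1 \ Starts c T1, ∀ k ∈ T, j < k → c k = c (R j) →
              ∀ l ∈ T, l < I j → c l ≠ c (R j) := by
            intro j hj k hk hjk hck l hl hlI hcl
            have hjT1 : j ∈ T1 := (Finset.mem_sdiff.1 hj).1
            have hne : c (R j) ≠ c j := by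
              intro he
              have h1 : c j ∈ s1 := (Finset.mem_filter.1 hjT1).2
              rw [← he] at h1
              exact Finset.disjoint_left.1 hd h1 (hRs j hj)
            exact hA (c (R j)) (hT _ (hR j hj)) (c j) (hT _ (hT1T hjT1)) hne
              (alt5 hl (hT1T (hI j hj)) (hR j hj) (hT1T hjT1) hk hlI (hIR j hj) (hRJ j hj) hjk
                hcl (hIJ j hj) rfl rfl hck)
          have lt_case : ∀ j ∈ T1 \ Starts c T1, ∀ j' ∈ T1 \ Starts c T1, j < j' →
              c (R j) = c (R j') →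
              ((∃ k ∈ T, j < k ∧ c k = c (R j)) ↔ (∃ k ∈ T, j' < k ∧ c k = c (R j'))) → False := by
            intro j hj j' hj' hlt hcR hiff
            have hjI : j ≤ I j' := by
              by_contra hgt
              exact hcons j' hj' j (Finset.mem_sdiff.1 hj).1 ⟨by omega, hlt⟩
            have h1 : ∃ k ∈ T, j < k ∧ c k = c (R j) :=
              ⟨R j', hR j' hj', by have := hIR j' hj'; omega, hcR.symm⟩
            obtain ⟨k, hk, hjk, hck⟩ := hiff.1 h1
            exact key j' hj' k hk hjk hck (R j) (hR j hj) (by have := hRJ j hj; omega) hcR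
          intro j hj j' hj' he
          simp only [Prod.mk.injEq, decide_eq_decide] at he
          rcases Nat.lt_trichotomy j j' with h | h | h
          · exact (lt_case j hj j' hj' h he.1 he.2).elim
          · exact h
          · exact (lt_case j' hj' j hj h he.1.symm he.2.symm).elim
      have hsum : T1.card = (Starts c T1).card + (T1 \ Starts c T1).card := by
        rw [← Finset.card_sdiff_add_card_eq_card (Starts_subset c T1), add_comm]
      rw [Finset.card_product, Finset.card_univ, Fintype.card_bool] at hD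
      rw [hsum]
      omega
    -- split the alphabet
    obtain ⟨s1, hs1, hc1⟩ : ∃ s1 ⊆ s, s1.card = min s.card (2 ^ m) :=
      Finset.exists_subset_card_eq (min_le_left _ _)
    have hs2 : (s \ s1).card ≤ 2 ^ m := by
      rw [Finset.card_sdiff_of_subset hs1, hc1]
      have : 2 ^ (m + 1) = 2 ^ m + 2 ^ m := by ring
      omega
    have hc1' : s1.card ≤ 2 ^ m := by rw [hc1]; exact min_le_right _ _
    have hu : s1 ∪ (s \ s1) = s := Finset.union_sdiff_of_subset hs1
    have g1 := half s1 (s \ s1) hu Finset.disjoint_sdiff hc1' hs2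
    have g2 := half (s \ s1) s1 (by rw [Finset.union_comm]; exact hu) Finset.sdiff_disjoint hs2 hc1'
    have hsplit : T.card = (T.filter (fun t => c t ∈ s1)).card +
        (T.filter (fun t => c t ∈ s \ s1)).card := by
      rw [← Finset.card_filter_add_card_filter_not (s := T) (fun t => c t ∈ s1)]
      congr 1
      apply congrArg Finset.card
      apply Finset.filter_congr
      intro t ht
      have := hT t ht
      simp [Finset.mem_sdiff, this]
    rw [hsplit]
    have e : 2 ^ (m + 1) * (2 * (m + 1) + 1) =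
        (2 ^ m * (2 * m + 1) + 2 * 2 ^ m) + (2 ^ m * (2 * m + 1) + 2 * 2 ^ m) := by ring
    rw [e]
    exact Nat.add_le_add g1 g2

end Pool.Agent.Q235.Tvb
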